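import Pool.Agent.Helper8_HK.Stmt3
import Pool.Agent.Helper59_HK.IMA
import Pool.Agent.Helper19_HK.LAU
import Pool.Agent.Helper47_HK.MTX

set_option autoImplicit false

/-!
Squad HK, module CAU (helper4): reconstruction of a function from its residues.
-/

namespace Pool.Agent.HK.H4C

open Polynomial Filter

section Nrm

variable {C : Type} [NormedField C] [IsUltrametricDist C]

theorem norm_sub_le_max' (x y : C) : ‖x - y‖ ≤ max ‖x‖ ‖y‖ := by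
  have := IsUltrametricDist.norm_add_le_max x (-y)
  rwa [← sub_eq_add_neg, norm_neg] at this

theorem norm_sub_of_lt' {x y : C} (h : ‖y‖ < ‖x‖) : ‖x - y‖ = ‖x‖ := by
  refine le_antisymm ((norm_sub_le_max' x y).trans (max_le le_rfl h.le)) ?_
  by_contra hc
  rw [not_le] at hc
  have h1 : ‖x‖ ≤ max ‖x - y‖ ‖y‖ := by
    have := IsUltrametricDist.norm_add_le_max (x - y) y
    rwa [sub_add_cancel] at this
  exact absurd h1 (not_le.2 (max_lt hc h))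

end Nrm

section Res

variable {F : Type} [Field F] [Fintype F] {C : Type} [NormedField C] [IsAlgClosed C]
  [CompleteSpace C] [IsUltrametricDist C] {ι : Kinf F →+* C} {ρ : C}

/-- the function on a circle -/
def Lf (c b : C) (h : C → C) : C → C := fun z => c * h (c * z + b)

variable (hR : RESStmt) (hc : Ctx ι ρ)
include hR hc

theorem add_res {h h' : C → C} (h1 : Nice ρ h) (h2 : Nice ρ h') :
    Nice ρ (fun z => h z + h' z) ∧ res F ρ (fun z => h z + h' z) = res F ρ h + res F ρ h' :=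
  (hR F C ι ρ hc).2.1 h h' h1 h2

theorem smul_res (c : C) {h : C → C} (h1 : Nice ρ h) :
    Nice ρ (fun z => c * h z) ∧ res F ρ (fun z => c * h z) = c * res F ρ h :=
  (hR F C ι ρ hc).2.2.1 c h h1

theorem congr_res {h h' : C → C} (e : ∀ z, ‖z‖ = ‖ρ‖ → h z = h' z) :
    (Nice ρ h → Nice ρ h') ∧ res F ρ h = res F ρ h' :=
  (hR F C ι ρ hc).2.2.2.1 h h' e

theorem bound_res {h : C → C} {B : ℝ} (h1 : Nice ρ h) (hB : 0 ≤ B)
    (hh : ∀ z, ‖z‖ = ‖ρ‖ → ‖h z‖ ≤ B) : ‖res F ρ h‖ ≤ ‖ρ‖ * B :=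
  (hR F C ι ρ hc).2.2.2.2.1 h B h1 hB hh

theorem sub_res {h h' : C → C} {B : ℝ} (h1 : Nice ρ h) (h2 : Nice ρ h') (hB : 0 ≤ B)
    (hh : ∀ z, ‖z‖ = ‖ρ‖ → ‖h z - h' z‖ ≤ B) : ‖res F ρ h - res F ρ h'‖ ≤ ‖ρ‖ * B := by
  obtain ⟨a1, a2⟩ := smul_res hR hc (-1) h2
  obtain ⟨b1, b2⟩ := add_res hR hc h1 a1
  have e : res F ρ h - res F ρ h' = res F ρ (fun z => h z + -1 * h' z) := by
    rw [b2, a2]; ring
  rw [e]
  refine bound_res hR hc b1 hB fun z hz => ?_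
  have : h z + -1 * h' z = h z - h' z := by ring
  rw [this]
  exact hh z hz

theorem poly_res (P : C[X]) :
    Nice ρ (fun z => P.eval z) ∧ res F ρ (fun z => P.eval z) = 0 := by
  obtain ⟨-, -, -, -, -, -, r7, -, r9, -⟩ := hR F C ι ρ hc
  induction P using Polynomial.induction_on' with
  | add p q hp hq =>
    obtain ⟨a1, a2⟩ := add_res hR hc hp.1 hq.1
    simp only [eval_add]
    refine ⟨a1, ?_⟩
    rw [a2, hp.2, hq.2, add_zero]
  | monomial n a =>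
    have h1 : Nice ρ (fun z : C => z ^ n) :=
      r7 _ (Submodule.subset_span (Or.inl ⟨n, rfl⟩))
    obtain ⟨a1, a2⟩ := smul_res hR hc a h1
    simp only [eval_monomial]
    refine ⟨a1, ?_⟩
    rw [a2, r9, mul_zero]

theorem inv_res (a : C) (j : ℕ) (ha : ‖a‖ ≠ ‖ρ‖) :
    Nice ρ (fun z => ((z - a) ^ (j + 1))⁻¹) ∧
      res F ρ (fun z => ((z - a) ^ (j + 1))⁻¹) = if j = 0 ∧ ‖a‖ < ‖ρ‖ then 1 else 0 := by
  obtain ⟨-, -, -, -, -, -, r7, -, -, r10, r11, r12⟩ := hR F C ι ρ hc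
  refine ⟨r7 _ (Submodule.subset_span (Or.inr ⟨a, ha, j, rfl⟩)), ?_⟩
  rcases j with _ | j
  · simp only [zero_add, pow_one, true_and]
    split_ifs with h
    · exact r10 a h
    · exact r11 a (lt_of_le_of_ne (not_lt.1 h) (Ne.symm ha))
  · rw [if_neg (by simp)]
    exact r12 a j ha

theorem lf_inv {c b : C} (hc0 : c ≠ 0) (a : C) (j : ℕ) (ha : ‖a - b‖ ≠ ‖c‖ * ‖ρ‖) :
    Nice ρ (Lf c b (fun w => ((w - a) ^ (j + 1))⁻¹)) ∧
      res F ρ (Lf c b (fun w => ((w - a) ^ (j + 1))⁻¹)) =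
        if j = 0 ∧ ‖a - b‖ < ‖c‖ * ‖ρ‖ then 1 else 0 := by
  have hcn : 0 < ‖c‖ := norm_pos_iff.2 hc0
  have hn : ‖(a - b) / c‖ ≠ ‖ρ‖ := by
    rw [norm_div]
    intro h
    apply ha
    rw [div_eq_iff hcn.ne'] at h
    rw [h, mul_comm]
  have hlt : ‖(a - b) / c‖ < ‖ρ‖ ↔ ‖a - b‖ < ‖c‖ * ‖ρ‖ := by
    rw [norm_div, div_lt_iff₀ hcn, mul_comm]
  obtain ⟨a1, a2⟩ := inv_res hR hc ((a - b) / c) j hn
  obtain ⟨b1, b2⟩ := smul_res hR hc (c * (c ^ (j + 1))⁻¹) a1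
  have e : Lf c b (fun w => ((w - a) ^ (j + 1))⁻¹) =
      fun z => c * (c ^ (j + 1))⁻¹ * ((z - (a - b) / c) ^ (j + 1))⁻¹ := by
    funext z
    unfold Lf
    have : c * z + b - a = c * (z - (a - b) / c) := by
      field_simp
      ring
    simp only
    rw [this, mul_pow, mul_inv, mul_assoc]
  rw [e]
  refine ⟨b1, ?_⟩
  rw [b2, a2]
  by_cases h : j = 0 ∧ ‖(a - b) / c‖ < ‖ρ‖
  · rw [if_pos h, if_pos ⟨h.1, hlt.1 h.2⟩, h.1, zero_add, pow_one, mul_inv_cancel₀ hc0, mul_one]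
  · rw [if_neg h, if_neg fun h' => h ⟨h'.1, hlt.2 h'.2⟩, mul_zero]

theorem lf_pow (c b : C) (j : ℕ) :
    Nice ρ (Lf c b (fun w => w ^ j)) ∧ res F ρ (Lf c b (fun w => w ^ j)) = 0 := by
  have e : Lf c b (fun w => w ^ j) =
      fun z => (Polynomial.C c * (Polynomial.C c * X + Polynomial.C b) ^ j).eval z := by
    funext z
    simp [Lf]
  rw [e]
  exact poly_res hR hc _

theorem lf_add {c b : C} {h h' : C → C} (h1 : Nice ρ (Lf c b h)) (h2 : Nice ρ (Lf c b h')) :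
    Nice ρ (Lf c b (fun w => h w + h' w)) ∧
      res F ρ (Lf c b (fun w => h w + h' w)) = res F ρ (Lf c b h) + res F ρ (Lf c b h') := by
  have e : Lf c b (fun w => h w + h' w) = fun z => Lf c b h z + Lf c b h' z := by
    funext z
    simp only [Lf]
    ring
  rw [e]
  exact add_res hR hc h1 h2

theorem lf_smul {c b : C} (d : C) {h : C → C} (h1 : Nice ρ (Lf c b h)) :
    Nice ρ (Lf c b (fun w => d * h w)) ∧
      res F ρ (Lf c b (fun w => d * h w)) = d * res F ρ (Lf c b h) := by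
  have e : Lf c b (fun w => d * h w) = fun z => d * Lf c b h z := by
    funext z
    simp only [Lf]
    ring
  rw [e]
  exact smul_res hR hc d h1

theorem lf_congr {c b : C} {h h' : C → C} (e : ∀ w, ‖w - b‖ = ‖c‖ * ‖ρ‖ → h w = h' w) :
    (Nice ρ (Lf c b h) → Nice ρ (Lf c b h')) ∧ res F ρ (Lf c b h) = res F ρ (Lf c b h') := by
  refine congr_res hR hc fun z hz => ?_
  unfold Lf
  rw [e]
  rw [add_sub_cancel_right, norm_mul, hz]

open Classical in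
theorem lf_E {c b : C} (hc0 : c ≠ 0) (a z0 : C) (ha : ‖a - b‖ ≠ ‖c‖ * ‖ρ‖)
    (hz : ‖z0 - b‖ ≠ ‖c‖ * ‖ρ‖) (haz : a ≠ z0) (j : ℕ) :
    Nice ρ (Lf c b (fun w => ((w - a) ^ j)⁻¹ * (w - z0)⁻¹)) ∧
      res F ρ (Lf c b (fun w => ((w - a) ^ j)⁻¹ * (w - z0)⁻¹)) =
        ((z0 - a) ^ j)⁻¹ * ((if ‖z0 - b‖ < ‖c‖ * ‖ρ‖ then 1 else 0) -
          (if j ≠ 0 ∧ ‖a - b‖ < ‖c‖ * ‖ρ‖ then 1 else 0)) := by
  have h0 : z0 - a ≠ 0 := sub_ne_zero.2 (Ne.symm haz)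
  induction j with
  | zero =>
    obtain ⟨a1, a2⟩ := lf_inv hR hc hc0 z0 0 hz
    simp only [zero_add, pow_one, true_and] at a1 a2
    simp only [pow_zero, inv_one, one_mul, ne_eq, not_true_eq_false, false_and, if_false, sub_zero]
    exact ⟨a1, a2⟩
  | succ j ih =>
    obtain ⟨a1, a2⟩ := lf_inv hR hc hc0 a j ha
    obtain ⟨b1, b2⟩ := lf_smul hR hc (-1) a1
    obtain ⟨d1, d2⟩ := lf_add hR hc ih.1 b1
    obtain ⟨e1, e2⟩ := lf_smul hR hc (z0 - a)⁻¹ d1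
    obtain ⟨g1, g2⟩ := lf_congr (c := c) (b := b)
      (h := fun w => (z0 - a)⁻¹ * (((w - a) ^ j)⁻¹ * (w - z0)⁻¹ + -1 * ((w - a) ^ (j + 1))⁻¹))
      (h' := fun w => ((w - a) ^ (j + 1))⁻¹ * (w - z0)⁻¹) hR hc (fun w hw => by
        have w1 : w - a ≠ 0 := by
          intro h
          rw [sub_eq_zero.1 h] at hw
          exact ha hw
        have w2 : w - z0 ≠ 0 := by
          intro h
          rw [sub_eq_zero.1 h] at hw
          exact hz hw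
        rw [pow_succ]
        field_simp
        ring)
    refine ⟨g1 e1, ?_⟩
    rw [← g2, e2, d2, b2, a2, ih.2]
    rw [pow_succ, mul_inv]
    rcases j with _ | j
    · simp only [pow_zero, inv_one, ne_eq, not_true_eq_false, false_and, if_false, sub_zero,
        true_and, zero_add, one_ne_zero, not_false_eq_true]
      ring
    · simp only [ne_eq, Nat.add_eq_zero_iff, one_ne_zero, and_false, not_false_eq_true, true_and,
        false_and, if_false]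
      ring

open Classical in
theorem lf_G {c b : C} (hc0 : c ≠ 0) (z0 : C)
    (hz : ‖z0 - b‖ ≠ ‖c‖ * ‖ρ‖) (j : ℕ) :
    Nice ρ (Lf c b (fun w => w ^ j * (w - z0)⁻¹)) ∧
      res F ρ (Lf c b (fun w => w ^ j * (w - z0)⁻¹)) =
        z0 ^ j * (if ‖z0 - b‖ < ‖c‖ * ‖ρ‖ then 1 else 0) := by
  induction j with
  | zero =>
    obtain ⟨a1, a2⟩ := lf_inv hR hc hc0 z0 0 hz
    simp only [zero_add, pow_one, true_and] at a1 a2
    simp only [pow_zero, one_mul]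
    exact ⟨a1, a2⟩
  | succ j ih =>
    obtain ⟨a1, a2⟩ := lf_pow hR hc c b j
    obtain ⟨b1, b2⟩ := lf_smul hR hc z0 ih.1
    obtain ⟨d1, d2⟩ := lf_add hR hc a1 b1
    obtain ⟨g1, g2⟩ := lf_congr (c := c) (b := b)
      (h := fun w => w ^ j + z0 * (w ^ j * (w - z0)⁻¹))
      (h' := fun w => w ^ (j + 1) * (w - z0)⁻¹) hR hc (fun w hw => by
        have w2 : w - z0 ≠ 0 := by
          intro h
          rw [sub_eq_zero.1 h] at hw
          exact hz hw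
        field_simp
        ring)
    refine ⟨g1 d1, ?_⟩
    rw [← g2, d2, a2, b2, ih.2]
    ring

open Classical in
/-- the residue theorem for elementary functions -/
theorem resThm {κ : Type} [Fintype κ] (c0 b0 : C) (c b : κ → C) (z0 : C) (T : Set C)
    (hc0 : c0 ≠ 0) (hci : ∀ i, c i ≠ 0) (h0 : ‖z0 - b0‖ < ‖c0‖ * ‖ρ‖)
    (hz : ∀ i, ‖c i‖ * ‖ρ‖ < ‖z0 - b i‖)
    (hT : ∀ a ∈ T, a ≠ z0 ∧ ‖a - b0‖ ≠ ‖c0‖ * ‖ρ‖ ∧ (∀ i, ‖a - b i‖ ≠ ‖c i‖ * ‖ρ‖) ∧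
      (if ‖a - b0‖ < ‖c0‖ * ‖ρ‖ then (1 : C) else 0) =
        ∑ i, if ‖a - b i‖ < ‖c i‖ * ‖ρ‖ then (1 : C) else 0)
    (e : C → C) (he : e ∈ Elm T) :
    Nice ρ (Lf c0 b0 (fun w => e w * (w - z0)⁻¹)) ∧
    (∀ i, Nice ρ (Lf (c i) (b i) (fun w => e w * (w - z0)⁻¹))) ∧
    res F ρ (Lf c0 b0 (fun w => e w * (w - z0)⁻¹)) =
      e z0 + ∑ i, res F ρ (Lf (c i) (b i) (fun w => e w * (w - z0)⁻¹)) := by
  unfold Elm at he
  induction he using Submodule.span_induction with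
  | mem x hx =>
    rcases hx with ⟨j, rfl⟩ | ⟨a, ha, j, rfl⟩
    · obtain ⟨a1, a2⟩ := lf_G hR hc hc0 z0 h0.ne j
      have hi := fun i => lf_G hR hc (hci i) z0 (hz i).ne' j
      refine ⟨a1, fun i => (hi i).1, ?_⟩
      rw [a2, if_pos h0, mul_one]
      have : ∀ i, res F ρ (Lf (c i) (b i) (fun w => w ^ j * (w - z0)⁻¹)) = 0 := fun i => by
        rw [(hi i).2, if_neg (not_lt.2 (hz i).le), mul_zero]
      simp only [this, Finset.sum_const_zero, add_zero]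
    · obtain ⟨t1, t2, t3, t4⟩ := hT a ha
      obtain ⟨a1, a2⟩ := lf_E hR hc hc0 a z0 t2 h0.ne t1 (j + 1)
      have hi := fun i => lf_E hR hc (hci i) a z0 (t3 i) (hz i).ne' t1 (j + 1)
      refine ⟨a1, fun i => (hi i).1, ?_⟩
      rw [a2, if_pos h0]
      have : ∀ i, res F ρ (Lf (c i) (b i) (fun w => ((w - a) ^ (j + 1))⁻¹ * (w - z0)⁻¹)) =
          -((z0 - a) ^ (j + 1))⁻¹ * (if ‖a - b i‖ < ‖c i‖ * ‖ρ‖ then (1 : C) else 0) := fun i => by
        rw [(hi i).2, if_neg (not_lt.2 (hz i).le)]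
        by_cases hh : ‖a - b i‖ < ‖c i‖ * ‖ρ‖
        · rw [if_pos ⟨Nat.succ_ne_zero j, hh⟩, if_pos hh]
          ring
        · rw [if_neg (fun h => hh h.2), if_neg hh]
          ring
      simp only [this]
      rw [← Finset.mul_sum, ← t4]
      simp only [ne_eq, Nat.add_eq_zero_iff, one_ne_zero, and_false, not_false_eq_true, true_and]
      ring
  | zero =>
    have e1 : ∀ c' b' : C, Lf c' b' (fun w => (0 : C → C) w * (w - z0)⁻¹) =
        fun z => (0 : C[X]).eval z := fun c' b' => by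
      funext z
      simp [Lf]
    obtain ⟨p1, p2⟩ := poly_res hR hc (0 : C[X])
    refine ⟨by rw [e1]; exact p1, fun i => by rw [e1]; exact p1, ?_⟩
    simp only [e1]
    rw [p2]
    simp
  | add x y _ _ hx hy =>
    have e1 : ∀ c' b' : C, Lf c' b' (fun w => (x + y) w * (w - z0)⁻¹) =
        Lf c' b' (fun w => x w * (w - z0)⁻¹ + y w * (w - z0)⁻¹) := fun c' b' => by
      funext z
      simp only [Lf, Pi.add_apply]
      ring
    obtain ⟨x1, x2, x3⟩ := hx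
    obtain ⟨y1, y2, y3⟩ := hy
    obtain ⟨s1, s2⟩ := lf_add hR hc x1 y1
    have hi := fun i => lf_add hR hc (x2 i) (y2 i)
    refine ⟨by rw [e1]; exact s1, fun i => by rw [e1]; exact (hi i).1, ?_⟩
    rw [e1, s2, x3, y3]
    have h3 : ∑ i, res F ρ (Lf (c i) (b i) (fun w => (x + y) w * (w - z0)⁻¹)) =
        ∑ i, (res F ρ (Lf (c i) (b i) (fun w => x w * (w - z0)⁻¹)) +
          res F ρ (Lf (c i) (b i) (fun w => y w * (w - z0)⁻¹))) :=
      Finset.sum_congr rfl fun i _ => by rw [e1]; exact (hi i).2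
    rw [h3, Finset.sum_add_distrib, Pi.add_apply]
    ring
  | smul d x _ hx =>
    have e1 : ∀ c' b' : C, Lf c' b' (fun w => (d • x) w * (w - z0)⁻¹) =
        Lf c' b' (fun w => d * (x w * (w - z0)⁻¹)) := fun c' b' => by
      funext z
      simp only [Lf, Pi.smul_apply, smul_eq_mul]
      ring
    obtain ⟨x1, x2, x3⟩ := hx
    obtain ⟨s1, s2⟩ := lf_smul hR hc d x1
    have hi := fun i => lf_smul hR hc d (x2 i)
    refine ⟨by rw [e1]; exact s1, fun i => by rw [e1]; exact (hi i).1, ?_⟩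
    rw [e1, s2, x3]
    have h3 : ∑ i, res F ρ (Lf (c i) (b i) (fun w => (d • x) w * (w - z0)⁻¹)) =
        ∑ i, d * res F ρ (Lf (c i) (b i) (fun w => x w * (w - z0)⁻¹)) :=
      Finset.sum_congr rfl fun i _ => by rw [e1]; exact (hi i).2
    rw [h3, ← Finset.mul_sum, Pi.smul_apply, smul_eq_mul]
    ring

end Res

section Geo

variable {F : Type} [Field F] [Fintype F] {C : Type} [NormedField C] [IsUltrametricDist C]
  {ι : Kinf F →+* C}

theorem norm_unif (hok : NormOK ι) : ‖ι (unif F)‖ = (((Fintype.card F : ℕ) : ℝ))⁻¹ := by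
  have h0 : unif F ≠ 0 := H19.unif_ne
  rw [hok _ h0]
  unfold unif
  rw [HahnSeries.order_single one_ne_zero, zpow_neg, zpow_one]

theorem norm_unif_pos (hok : NormOK ι) (N : ℕ) :
    ‖ι ((unif F) ^ (N : ℤ))‖ = ((((Fintype.card F : ℕ) : ℝ)) ^ N)⁻¹ := by
  rw [map_zpow₀, norm_zpow, norm_unif hok, zpow_natCast, inv_pow]

theorem norm_unif_neg (hok : NormOK ι) (N : ℕ) :
    ‖ι ((unif F) ^ (-(N : ℤ)))‖ = (((Fintype.card F : ℕ) : ℝ)) ^ N := by
  rw [map_zpow₀, norm_zpow, norm_unif hok, zpow_neg, zpow_natCast, inv_pow, inv_inv]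

theorem quant (hok : NormOK ι) (x : Kinf F) (k : ℤ)
    (h : (((Fintype.card F : ℕ) : ℝ)) ^ k < ‖ι x‖) :
    (((Fintype.card F : ℕ) : ℝ)) ^ (k + 1) ≤ ‖ι x‖ := by
  have hq := H59.one_lt_q F
  rcases H59.norm_zpow hok x with h0 | ⟨m, hm⟩
  · rw [h0] at h
    have : (0 : ℝ) < (((Fintype.card F : ℕ) : ℝ)) ^ k := by positivity
    exact absurd h (not_lt.2 this.le)
  · rw [hm] at h ⊢
    have := (zpow_lt_zpow_iff_right₀ hq).1 h
    exact zpow_le_zpow_right₀ hq.le (by omega)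

omit [Fintype F] in
theorem coeff_dig (k : ℤ) {N : ℕ} (s : Fin N → F) (m : ℤ) :
    HahnSeries.coeff (dig k s) m = ∑ j : Fin N, if m = k + ((j : ℕ) : ℤ) then s j else 0 := by
  unfold dig
  rw [HahnSeries.coeff_sum]
  refine Finset.sum_congr rfl fun j _ => ?_
  rw [H19.coeff_cst_mul, H19.unif_zpow, HahnSeries.coeff_single]
  split_ifs with h <;> simp

omit [Fintype F] in
theorem coeff_dig_self (k : ℤ) {N : ℕ} (s : Fin N → F) (i : Fin N) :
    HahnSeries.coeff (dig k s) (k + ((i : ℕ) : ℤ)) = s i := by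
  rw [coeff_dig, Finset.sum_eq_single i]
  · rw [if_pos rfl]
  · intro j _ hj
    rw [if_neg]
    intro h
    apply hj
    apply Fin.ext
    omega
  · intro h
    exact absurd (Finset.mem_univ _) h

omit [Fintype F] in
theorem inO_dig (k : ℤ) {N : ℕ} (s : Fin N → F) : InO k (dig k s) := by
  intro m hm
  rw [coeff_dig]
  refine Finset.sum_eq_zero fun j _ => ?_
  rw [if_neg (by omega)]

omit [Fintype F] in
theorem exists_dig (N : ℕ) (y : Kinf F) (hy : InO (-(N : ℤ)) y) :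
    ∃ s : Fin (2 * N) → F, InO (N : ℤ) (y - dig (-(N : ℤ)) s) := by
  refine ⟨fun j => HahnSeries.coeff y (-(N : ℤ) + ((j : ℕ) : ℤ)), fun m hm => ?_⟩
  rw [HahnSeries.coeff_sub]
  rcases lt_or_ge m (-(N : ℤ)) with h | h
  · rw [hy m h, inO_dig (-(N : ℤ)) _ m h, sub_zero]
  · obtain ⟨j, hj⟩ := Int.eq_ofNat_of_zero_le (show 0 ≤ m + N by omega)
    have hj2 : j < 2 * N := by omega
    have e : m = -(N : ℤ) + (((⟨j, hj2⟩ : Fin (2 * N)) : ℕ) : ℤ) := by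
      simp only
      omega
    rw [e, coeff_dig_self, sub_self]

theorem dig_far (hok : NormOK ι) (N : ℕ) {s s' : Fin (2 * N) → F} (h : s ≠ s') :
    ((((Fintype.card F : ℕ) : ℝ)) ^ N)⁻¹ * ((Fintype.card F : ℕ) : ℝ) ≤
      ‖ι (dig (-(N : ℤ)) s - dig (-(N : ℤ)) s')‖ := by
  have hq := H59.one_lt_q F
  have h1 : ¬ InO (N : ℤ) (dig (-(N : ℤ)) s - dig (-(N : ℤ)) s') := by
    intro hI
    apply h
    funext i
    have h2 := hI (-(N : ℤ) + ((i : ℕ) : ℤ)) (by have := i.isLt; omega)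
    rw [HahnSeries.coeff_sub, coeff_dig_self, coeff_dig_self] at h2
    exact sub_eq_zero.1 h2
  have h2 : (((Fintype.card F : ℕ) : ℝ)) ^ (-(N : ℤ)) <
      ‖ι (dig (-(N : ℤ)) s - dig (-(N : ℤ)) s')‖ := by
    by_contra hc
    exact h1 (H59.inO_of_norm_le hok (not_lt.1 hc))
  have h3 := quant hok _ _ h2
  rw [zpow_add₀ (by positivity), zpow_neg, zpow_natCast, zpow_one] at h3
  exact h3

theorem norm_dig (hok : NormOK ι) (N : ℕ) (s : Fin (2 * N) → F) :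
    ‖ι (dig (-(N : ℤ)) s)‖ ≤ (((Fintype.card F : ℕ) : ℝ)) ^ N := by
  have h := H59.norm_le_of_inO hok (inO_dig (-(N : ℤ)) s)
  rw [neg_neg, zpow_natCast] at h
  exact h

open Classical in
theorem geo (hok : NormOK ι) {r : ℝ} (hr1 : 1 < r) (hr2 : r < ((Fintype.card F : ℕ) : ℝ)) (N : ℕ)
    (a : C) (ha : a ∉ OmN ι (N + 1)) :
    ‖a - 0‖ ≠ ‖ι ((unif F) ^ (-(N : ℤ)))‖ * r ∧
    (∀ s : Fin (2 * N) → F, ‖a - ι (dig (-(N : ℤ)) s)‖ ≠ ‖ι ((unif F) ^ (N : ℤ))‖ * r) ∧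
    (if ‖a - 0‖ < ‖ι ((unif F) ^ (-(N : ℤ)))‖ * r then (1 : C) else 0) =
      ∑ s : Fin (2 * N) → F, if ‖a - ι (dig (-(N : ℤ)) s)‖ < ‖ι ((unif F) ^ (N : ℤ))‖ * r
        then (1 : C) else 0 := by
  have hq := H59.one_lt_q F
  rw [norm_unif_pos hok, norm_unif_neg hok, sub_zero]
  set q : ℝ := ((Fintype.card F : ℕ) : ℝ) with hqdef
  have hQ : 0 < q ^ N := by positivity
  have hQ1 : 1 ≤ q ^ N := one_le_pow₀ hq.le
  have hQi : (q ^ N)⁻¹ ≤ 1 := inv_le_one_of_one_le₀ hQ1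
  have hQi0 : 0 < (q ^ N)⁻¹ := by positivity
  by_cases hA : q ^ N * q ≤ ‖a‖
  · have h1 : q ^ N * r < ‖a‖ := lt_of_lt_of_le (mul_lt_mul_of_pos_left hr2 hQ) hA
    have h2 : ∀ s : Fin (2 * N) → F, ‖a - ι (dig (-(N : ℤ)) s)‖ = ‖a‖ := fun s => by
      refine norm_sub_of_lt' (lt_of_le_of_lt (norm_dig hok N s) (lt_of_le_of_lt ?_ h1))
      nlinarith
    have h3 : (q ^ N)⁻¹ * r < ‖a‖ := by
      refine lt_of_le_of_lt ?_ h1
      exact mul_le_mul_of_nonneg_right (hQi.trans hQ1) (by linarith)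
    refine ⟨h1.ne', fun s => by rw [h2]; exact h3.ne', ?_⟩
    rw [if_neg (not_lt.2 h1.le)]
    symm
    refine Finset.sum_eq_zero fun s _ => ?_
    rw [h2, if_neg (not_lt.2 h3.le)]
  · have hA' : ‖a‖ < q ^ N * q := not_le.1 hA
    have hex : ∃ x : Kinf F, ‖a - ι x‖ < (q ^ (N + 1))⁻¹ := by
      by_contra hc
      push Not at hc
      exact ha ⟨by rw [pow_succ]; exact hA'.le, hc⟩
    obtain ⟨y, hy⟩ := hex
    have hinv : (q ^ (N + 1))⁻¹ ≤ (q ^ N)⁻¹ := by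
      apply inv_anti₀ hQ
      exact pow_le_pow_right₀ hq.le (Nat.le_succ N)
    have hyO : InO (-(N : ℤ)) y := by
      apply H59.inO_of_norm_le hok
      rw [neg_neg]
      by_contra hc
      rw [not_le] at hc
      have h1 := quant hok y _ hc
      rw [zpow_add₀ (by positivity), zpow_natCast, zpow_one] at h1
      have h2 : ‖a - ι y‖ < ‖ι y‖ := by
        refine lt_of_lt_of_le hy (hinv.trans (hQi.trans (le_trans hQ1 (le_trans ?_ h1))))
        nlinarith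
      have h3 : ‖a‖ = ‖ι y‖ := by
        have e : a = ι y - (-(a - ι y)) := by ring
        rw [e]
        have := norm_sub_of_lt' (x := ι y) (y := -(a - ι y)) (by rw [norm_neg]; exact h2)
        rw [this]
      rw [h3] at hA'
      exact absurd h1 (not_le.2 hA')
    have hyn : ‖ι y‖ ≤ q ^ N := by
      have := H59.norm_le_of_inO hok hyO
      rwa [neg_neg, zpow_natCast] at this
    obtain ⟨s0, hs0⟩ := exists_dig N y hyO
    have h1 : ‖ι (y - dig (-(N : ℤ)) s0)‖ ≤ (q ^ N)⁻¹ := by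
      have := H59.norm_le_of_inO hok hs0
      rwa [zpow_neg, zpow_natCast] at this
    have h2 : ‖a - ι (dig (-(N : ℤ)) s0)‖ ≤ (q ^ N)⁻¹ := by
      have e : a - ι (dig (-(N : ℤ)) s0) = (a - ι y) + ι (y - dig (-(N : ℤ)) s0) := by
        rw [map_sub]; ring
      rw [e]
      exact (IsUltrametricDist.norm_add_le_max _ _).trans (max_le (hy.le.trans hinv) h1)
    have h3 : (q ^ N)⁻¹ < (q ^ N)⁻¹ * r := by nlinarith
    have h4 : ∀ s : Fin (2 * N) → F, s ≠ s0 →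
        (q ^ N)⁻¹ * r < ‖a - ι (dig (-(N : ℤ)) s)‖ := by
      intro s hs
      have h5 := dig_far hok N (Ne.symm hs)
      have h6 : (q ^ N)⁻¹ * r < ‖ι (dig (-(N : ℤ)) s0 - dig (-(N : ℤ)) s)‖ :=
        lt_of_lt_of_le (mul_lt_mul_of_pos_left hr2 hQi0) h5
      have e : a - ι (dig (-(N : ℤ)) s) = ι (dig (-(N : ℤ)) s0 - dig (-(N : ℤ)) s) -
          (-(a - ι (dig (-(N : ℤ)) s0))) := by
        rw [map_sub]; ring
      rw [e, norm_sub_of_lt']
      · exact h6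
      · rw [norm_neg]
        exact lt_of_le_of_lt h2 (h3.trans h6)
    have h5 : ‖a‖ ≤ q ^ N := by
      have e : a = (a - ι y) + ι y := by ring
      rw [e]
      exact (IsUltrametricDist.norm_add_le_max _ _).trans
        (max_le (hy.le.trans (hinv.trans (hQi.trans hQ1))) hyn)
    have h6 : ‖a‖ < q ^ N * r := by nlinarith
    refine ⟨h6.ne, fun s => ?_, ?_⟩
    · by_cases hs : s = s0
      · rw [hs]; exact (lt_of_le_of_lt h2 h3).ne
      · exact (h4 s hs).ne'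
    · rw [if_pos h6, Finset.sum_eq_single s0]
      · rw [if_pos (lt_of_le_of_lt h2 h3)]
      · intro s _ hs
        rw [if_neg (not_lt.2 (h4 s hs).le)]
      · intro h
        exact absurd (Finset.mem_univ _) h

/-- points of the circles -/
theorem circ_mem {ρ : C} (hr1 : 1 < ‖ρ‖)
    (hr2 : ‖ρ‖ < ((Fintype.card F : ℕ) : ℝ)) (N : ℕ) {u y : Kinf F} (hu : u ≠ 0)
    (h1 : ((((Fintype.card F : ℕ) : ℝ)) ^ N)⁻¹ ≤ ‖ι u‖)
    (h2 : ‖ι u‖ ≤ (((Fintype.card F : ℕ) : ℝ)) ^ N)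
    (h3 : ‖ι y‖ ≤ (((Fintype.card F : ℕ) : ℝ)) ^ N) (z : C) (hz : ‖z‖ = ‖ρ‖)
    (hzi : ∀ x : Kinf F, ‖ρ‖ ≤ ‖z - ι x‖) : ι u * z + ι y ∈ OmN ι (N + 1) := by
  have hq := H59.one_lt_q F
  set q : ℝ := ((Fintype.card F : ℕ) : ℝ) with hqdef
  have hQ : 0 < q ^ N := by positivity
  have hu0 : ι u ≠ 0 := (map_ne_zero ι).2 hu
  constructor
  · refine (IsUltrametricDist.norm_add_le_max _ _).trans (max_le ?_ ?_)
    · rw [norm_mul, hz, pow_succ]
      exact mul_le_mul h2 hr2.le (norm_nonneg _) hQ.le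
    · refine h3.trans ?_
      exact pow_le_pow_right₀ hq.le (Nat.le_succ N)
  · intro x
    have e : ι u * z + ι y - ι x = ι u * (z - ι ((x - y) / u)) := by
      rw [map_div₀, map_sub]
      field_simp
      ring
    rw [e, norm_mul]
    calc (q ^ (N + 1))⁻¹ ≤ (q ^ N)⁻¹ :=
          inv_anti₀ hQ (pow_le_pow_right₀ hq.le (Nat.le_succ N))
      _ = (q ^ N)⁻¹ * 1 := (mul_one _).symm
      _ ≤ ‖ι u‖ * ‖z - ι ((x - y) / u)‖ :=
          mul_le_mul h1 (hr1.le.trans (hzi _)) zero_le_one (norm_nonneg _)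

end Geo

section Main

variable {F : Type} [Field F] [Fintype F] {C : Type} [NormedField C] [IsAlgClosed C]
  [CompleteSpace C] [IsUltrametricDist C] {ι : Kinf F →+* C} {ρ : C}

theorem lf_div (hR : RESStmt) (hc : Ctx ι ρ) {c b : C} (hc0 : c ≠ 0) (z0 : C)
    (hz : ‖z0 - b‖ ≠ ‖c‖ * ‖ρ‖) {f : C → C} (hf : Nice ρ (Lf c b f)) :
    Nice ρ (Lf c b (fun w => f w * (w - z0)⁻¹)) := by
  have hcn : 0 < ‖c‖ := norm_pos_iff.2 hc0
  have hn : ‖(z0 - b) / c‖ ≠ ‖ρ‖ := by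
    rw [norm_div]
    intro h
    apply hz
    rw [div_eq_iff hcn.ne'] at h
    rw [h, mul_comm]
  have h1 := (hR F C ι ρ hc).2.2.2.2.2.2.2.1 (Lf c b f) ((z0 - b) / c) hf hn
  have h2 := (smul_res hR hc c⁻¹ h1).1
  have e : Lf c b (fun w => f w * (w - z0)⁻¹) =
      fun z => c⁻¹ * (Lf c b f z * (z - (z0 - b) / c)⁻¹) := by
    funext z
    unfold Lf
    have : c * z + b - z0 = c * (z - (z0 - b) / c) := by
      field_simp
      ring
    simp only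
    rw [this, mul_inv]
    ring
  rw [e]
  exact h2

omit [Fintype F] [IsAlgClosed C] [CompleteSpace C] [IsUltrametricDist C] in
theorem slash_eq (u y : Kinf F) (hu : u ≠ 0) (f : C → C) :
    slash ι (mat u y 0 1) f = Lf (ι u) (ι y) f := by
  obtain ⟨m1, m2, m3, m4⟩ := (H47.mtx F).1 u y 0 1 (by rw [mul_one, mul_zero, sub_zero]; exact hu)
  funext z
  unfold slash Lf
  rw [m1, m2, m3, m4]
  simp

/-- the bound for the difference of two residues -/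
theorem diff_bound (hR : RESStmt) (hc : Ctx ι ρ) (hρ : 0 < ‖ρ‖) {c b : C} (hc0 : c ≠ 0) (z0 : C)
    {f e : C → C} {ε : ℝ} (hε : 0 < ε)
    (h1 : Nice ρ (Lf c b (fun w => f w * (w - z0)⁻¹)))
    (h2 : Nice ρ (Lf c b (fun w => e w * (w - z0)⁻¹)))
    (h3 : ∀ z, ‖z‖ = ‖ρ‖ → ‖f (c * z + b) - e (c * z + b)‖ ≤ ε ∧
      ‖c‖ * ‖ρ‖ ≤ ‖c * z + b - z0‖) :
    ‖res F ρ (Lf c b (fun w => f w * (w - z0)⁻¹)) -
      res F ρ (Lf c b (fun w => e w * (w - z0)⁻¹))‖ ≤ ε := by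
  have hcn : 0 < ‖c‖ := norm_pos_iff.2 hc0
  have h := sub_res hR hc h1 h2 (B := ε / ‖ρ‖) (by positivity) (fun z hz => by
    obtain ⟨k1, k2⟩ := h3 z hz
    have e1 : Lf c b (fun w => f w * (w - z0)⁻¹) z - Lf c b (fun w => e w * (w - z0)⁻¹) z =
        c * ((f (c * z + b) - e (c * z + b)) * (c * z + b - z0)⁻¹) := by
      unfold Lf
      ring
    rw [e1, norm_mul, norm_mul, norm_inv]
    have k3 : ‖c * z + b - z0‖⁻¹ ≤ (‖c‖ * ‖ρ‖)⁻¹ := inv_anti₀ (by positivity) k2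
    calc ‖c‖ * (‖f (c * z + b) - e (c * z + b)‖ * ‖c * z + b - z0‖⁻¹)
        ≤ ‖c‖ * (ε * (‖c‖ * ‖ρ‖)⁻¹) := by
          refine mul_le_mul_of_nonneg_left ?_ hcn.le
          exact mul_le_mul k1 k3 (by positivity) hε.le
      _ = ε / ‖ρ‖ := by field_simp)
  rwa [mul_div_cancel₀ _ hρ.ne'] at h

theorem estimate (hR : RESStmt) (hNIC : NICStmt) (hELM : ELMStmt) (hHOL : HOLStmt)
    (hSLA : SLAStmt) (hc : Ctx ι ρ) {f : C → C} {B : ℝ} (hoff : Off ι f) (hhol : IsHolo ι f)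
    (hbd : BddI ι B f) (z0 : C) (hz0 : z0 ∈ Om ι) (N : ℕ)
    (hN1 : ‖z0‖ ≤ ((Fintype.card F : ℕ) : ℝ) ^ N)
    (hN2 : (((Fintype.card F : ℕ) : ℝ) ^ N)⁻¹ * ((Fintype.card F : ℕ) : ℝ) ≤ imz ι z0) :
    ‖(∑ s : Fin (2 * N) → F, kap ι ρ f (mat ((unif F) ^ (N : ℤ)) (dig (-(N : ℤ)) s) 0 1) *
      (z0 - ι (dig (-(N : ℤ)) s))⁻¹) - f z0‖ ≤
      (B + B * ((Fintype.card F : ℕ) : ℝ) / (imz ι z0) ^ 2) *
        (((Fintype.card F : ℕ) : ℝ) ^ N)⁻¹ := by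
  classical
  have hok := hc.ok
  obtain ⟨n1, n2, -, n4, -, n6⟩ := hNIC F C ι ρ hc
  have hima := H59.ima F C ι hok
  obtain ⟨-, -, -, -, -, i6, -, i8, -, -, -⟩ := hima
  have hq := H59.one_lt_q F
  set q : ℝ := ((Fintype.card F : ℕ) : ℝ) with hqdef
  set δ : ℝ := imz ι z0 with hδdef
  have hδ : 0 < δ := (i6 z0 hz0).1
  have hδx : ∀ x : Kinf F, δ ≤ ‖z0 - ι x‖ := fun x => H59.imz_le ι z0 x
  have hQ : 0 < q ^ N := by positivity
  have hQi0 : 0 < (q ^ N)⁻¹ := by positivity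
  have hρ : 0 < ‖ρ‖ := by linarith
  have hunif0 : unif F ≠ 0 := H19.unif_ne
  -- the circles
  set cN : C := ι ((unif F) ^ (N : ℤ)) with hcN
  set cM : C := ι ((unif F) ^ (-(N : ℤ))) with hcM
  have hcNn : ‖cN‖ = (q ^ N)⁻¹ := norm_unif_pos hok N
  have hcMn : ‖cM‖ = q ^ N := norm_unif_neg hok N
  have hcN0 : cN ≠ 0 := by rw [← norm_pos_iff, hcNn]; exact hQi0
  have hcM0 : cM ≠ 0 := by rw [← norm_pos_iff, hcMn]; exact hQ
  have hzo : ‖z0 - 0‖ < ‖cM‖ * ‖ρ‖ := by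
    rw [sub_zero, hcMn]
    nlinarith
  have hzs : ∀ s : Fin (2 * N) → F, ‖cN‖ * ‖ρ‖ < ‖z0 - ι (dig (-(N : ℤ)) s)‖ := by
    intro s
    rw [hcNn]
    exact lt_of_lt_of_le (mul_lt_mul_of_pos_left n2 hQi0) (hN2.trans (hδx _))
  have hcirc : ∀ z : C, ‖z‖ = ‖ρ‖ → z ∈ Om ι ∧ imz ι z = ‖ρ‖ ∧ ∀ x : Kinf F, ‖ρ‖ ≤ ‖z - ι x‖ := by
    intro z hz
    obtain ⟨k1, k2⟩ := n4 z hz
    refine ⟨((i8 1 z).1 k1).1, k2, fun x => ?_⟩
    rw [← k2]
    exact H59.imz_le ι z x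
  have hQ1 : 1 ≤ q ^ N := one_le_pow₀ hq.le
  have hQi : (q ^ N)⁻¹ ≤ 1 := inv_le_one_of_one_le₀ hQ1
  have hmemo : ∀ z : C, ‖z‖ = ‖ρ‖ → cM * z + 0 ∈ OmN ι (N + 1) := by
    intro z hz
    have h := circ_mem n1 n2 N (u := (unif F) ^ (-(N : ℤ))) (y := 0) (zpow_ne_zero _ hunif0)
      (by rw [norm_unif_neg hok]; exact hQi.trans hQ1) (by rw [norm_unif_neg hok])
      (by rw [map_zero, norm_zero]; exact hQ.le) z hz (hcirc z hz).2.2
    rwa [map_zero] at h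
  have hmems : ∀ (s : Fin (2 * N) → F) (z : C), ‖z‖ = ‖ρ‖ →
      cN * z + ι (dig (-(N : ℤ)) s) ∈ OmN ι (N + 1) := by
    intro s z hz
    exact circ_mem n1 n2 N (u := (unif F) ^ (N : ℤ)) (y := dig (-(N : ℤ)) s)
      (zpow_ne_zero _ hunif0) (by rw [norm_unif_pos hok])
      (by rw [norm_unif_pos hok]; exact hQi.trans hQ1) (norm_dig hok N s) z hz (hcirc z hz).2.2
  have hz0mem : z0 ∈ OmN ι (N + 1) := by
    rw [i8]
    refine ⟨hz0, hN1.trans (pow_le_pow_right₀ hq.le (Nat.le_succ N)), ?_⟩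
    refine le_trans ?_ hN2
    calc (q ^ (N + 1))⁻¹ ≤ (q ^ N)⁻¹ :=
          inv_anti₀ hQ (pow_le_pow_right₀ hq.le (Nat.le_succ N))
      _ = (q ^ N)⁻¹ * 1 := (mul_one _).symm
      _ ≤ (q ^ N)⁻¹ * q := mul_le_mul_of_nonneg_left hq.le hQi0.le
  -- f is nice on the circles
  have hsl : ∀ u y : Kinf F, u ≠ 0 → Nice ρ (Lf (ι u) (ι y) f) := by
    intro u y hu
    rw [← slash_eq u y hu f]
    exact n6 _ ((hHOL F C ι hok f hhol).1 _)
  have hbds : ∀ (u y : Kinf F), u ≠ 0 → ∀ z, ‖z‖ = ‖ρ‖ → ‖Lf (ι u) (ι y) f z‖ ≤ B / ‖ρ‖ := by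
    intro u y hu z hz
    have h := ((hSLA F C ι hok).2 f hoff).2.2.2.2.2 B (mat u y 0 1) hbd z (hcirc z hz).1
    rw [slash_eq u y hu f, (hcirc z hz).2.1] at h
    rwa [le_div_iff₀ hρ]
  have hB : 0 ≤ B := by
    have h := hbds 1 0 one_ne_zero ρ rfl
    have h2 : 0 ≤ B / ‖ρ‖ := (norm_nonneg _).trans h
    have := mul_nonneg h2 hρ.le
    rwa [div_mul_cancel₀ _ hρ.ne'] at this
  have hfo : Nice ρ (Lf cM 0 f) := by
    have h := hsl ((unif F) ^ (-(N : ℤ))) 0 (zpow_ne_zero _ hunif0)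
    rwa [map_zero] at h
  have hfs : ∀ s : Fin (2 * N) → F, Nice ρ (Lf cN (ι (dig (-(N : ℤ)) s)) f) := fun s =>
    hsl ((unif F) ^ (N : ℤ)) (dig (-(N : ℤ)) s) (zpow_ne_zero _ hunif0)
  have hgo := lf_div hR hc hcM0 z0 hzo.ne hfo
  have hgs := fun s : Fin (2 * N) → F => lf_div hR hc hcN0 z0 (hzs s).ne' (hfs s)
  have hwo : ∀ z, ‖z‖ = ‖ρ‖ → ‖cM‖ * ‖ρ‖ ≤ ‖cM * z + 0 - z0‖ := by
    intro z hz
    rw [add_zero, norm_sub_of_lt']
    · rw [norm_mul, hz]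
    · rw [norm_mul, hz]
      rwa [sub_zero] at hzo
  have hws : ∀ (s : Fin (2 * N) → F) (z : C), ‖z‖ = ‖ρ‖ →
      ‖cN * z + ι (dig (-(N : ℤ)) s) - z0‖ = ‖z0 - ι (dig (-(N : ℤ)) s)‖ := by
    intro s z hz
    have e : cN * z + ι (dig (-(N : ℤ)) s) - z0 =
        -((z0 - ι (dig (-(N : ℤ)) s)) - cN * z) := by ring
    rw [e, norm_neg, norm_sub_of_lt']
    rw [norm_mul, hz]
    exact hzs s
  -- the exact formula
  have hexact : f z0 + ∑ s : Fin (2 * N) → F,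
      res F ρ (Lf cN (ι (dig (-(N : ℤ)) s)) (fun w => f w * (w - z0)⁻¹)) =
      res F ρ (Lf cM 0 (fun w => f w * (w - z0)⁻¹)) := by
    by_contra hne
    set D := f z0 + ∑ s : Fin (2 * N) → F,
      res F ρ (Lf cN (ι (dig (-(N : ℤ)) s)) (fun w => f w * (w - z0)⁻¹)) -
      res F ρ (Lf cM 0 (fun w => f w * (w - z0)⁻¹)) with hD
    have hDpos : 0 < ‖D‖ := by
      rw [norm_pos_iff, hD]
      exact sub_ne_zero.2 hne
    obtain ⟨P, Q, hQ0, hPQ⟩ := hhol (N + 1) (‖D‖ / 2) (by positivity)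
    obtain ⟨e, heE, he⟩ := (hELM C (OmN ι (N + 1))).1 P Q hQ0
    have hfe : ∀ w ∈ OmN ι (N + 1), ‖f w - e w‖ ≤ ‖D‖ / 2 := by
      intro w hw
      rw [← he w hw]
      exact (hPQ w hw).le
    obtain ⟨t1, t2, t3⟩ := resThm hR hc cM 0 (fun _ : Fin (2 * N) → F => cN)
      (fun s => ι (dig (-(N : ℤ)) s)) z0 (OmN ι (N + 1))ᶜ hcM0 (fun _ => hcN0) hzo hzs
      (fun a ha => by
        refine ⟨?_, ?_⟩
        · rintro rfl
          exact ha hz0mem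
        · exact geo hok n1 n2 N a ha) e heE
    have d1 := diff_bound hR hc hρ hcM0 z0 (ε := ‖D‖ / 2) (by positivity) hgo t1
      (fun z hz => ⟨hfe _ (hmemo z hz), hwo z hz⟩)
    have d2 : ∀ s : Fin (2 * N) → F, _ := fun s =>
      diff_bound hR hc hρ hcN0 z0 (ε := ‖D‖ / 2) (by positivity) (hgs s) (t2 s)
      (fun z hz => ⟨hfe _ (hmems s z hz), by rw [hws s z hz]; exact (hzs s).le⟩)
    have hDe : D = (f z0 - e z0) + (∑ s : Fin (2 * N) → F,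
        (res F ρ (Lf cN (ι (dig (-(N : ℤ)) s)) (fun w => f w * (w - z0)⁻¹)) -
        res F ρ (Lf cN (ι (dig (-(N : ℤ)) s)) (fun w => e w * (w - z0)⁻¹)))) -
        (res F ρ (Lf cM 0 (fun w => f w * (w - z0)⁻¹)) -
          res F ρ (Lf cM 0 (fun w => e w * (w - z0)⁻¹))) := by
      rw [t3, Finset.sum_sub_distrib, hD]
      ring
    have : ‖D‖ ≤ ‖D‖ / 2 := by
      conv_lhs => rw [hDe]
      refine (norm_sub_le_max' _ _).trans (max_le ?_ d1)
      refine (IsUltrametricDist.norm_add_le_max _ _).trans (max_le (hfe z0 hz0mem) ?_)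
      exact IsUltrametricDist.norm_sum_le_of_forall_le_of_nonneg (by positivity) fun s _ => d2 s
    linarith
  -- the estimates
  have E1 : ‖res F ρ (Lf cM 0 (fun w => f w * (w - z0)⁻¹))‖ ≤ B * (q ^ N)⁻¹ := by
    have h := bound_res hR hc hgo (B := B / ‖ρ‖ * (‖cM‖ * ‖ρ‖)⁻¹) (by positivity) (fun z hz => by
      have k1 := hbds ((unif F) ^ (-(N : ℤ))) 0 (zpow_ne_zero _ hunif0) z hz
      rw [map_zero] at k1
      have e1 : Lf cM 0 (fun w => f w * (w - z0)⁻¹) z =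
          Lf cM 0 f z * (cM * z + 0 - z0)⁻¹ := by
        unfold Lf
        ring
      rw [e1, norm_mul, norm_inv]
      exact mul_le_mul k1 (inv_anti₀ (by positivity) (hwo z hz)) (by positivity) (by positivity))
    refine h.trans ?_
    rw [hcMn, mul_inv]
    have : ‖ρ‖ * (B / ‖ρ‖ * ((q ^ N)⁻¹ * ‖ρ‖⁻¹)) = B * (q ^ N)⁻¹ * ‖ρ‖⁻¹ := by
      field_simp
    rw [this]
    have h5 : ‖ρ‖⁻¹ ≤ 1 := inv_le_one_of_one_le₀ n1.le
    have h6 : 0 ≤ B * (q ^ N)⁻¹ := by positivity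
    nlinarith
  have E2 : ∀ s : Fin (2 * N) → F,
      ‖res F ρ (Lf cN (ι (dig (-(N : ℤ)) s)) (fun w => f w * (w - z0)⁻¹)) -
        (ι (dig (-(N : ℤ)) s) - z0)⁻¹ * res F ρ (Lf cN (ι (dig (-(N : ℤ)) s)) f)‖ ≤
      B * ((q ^ N)⁻¹ * q) / δ ^ 2 := by
    intro s
    obtain ⟨m1, m2⟩ := smul_res hR hc (ι (dig (-(N : ℤ)) s) - z0)⁻¹ (hfs s)
    rw [← m2]
    have h := sub_res hR hc (hgs s) m1 (B := B / ‖ρ‖ * ((q ^ N)⁻¹ * ‖ρ‖ / δ ^ 2)) (by positivity)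
      (fun z hz => by
        have k1 := hbds ((unif F) ^ (N : ℤ)) (dig (-(N : ℤ)) s) (zpow_ne_zero _ hunif0) z hz
        have k2 := hws s z hz
        have w1 : cN * z + ι (dig (-(N : ℤ)) s) - z0 ≠ 0 := by
          rw [← norm_pos_iff, k2]
          exact hδ.trans_le (hδx _)
        have w2 : ι (dig (-(N : ℤ)) s) - z0 ≠ 0 := by
          rw [← norm_pos_iff, norm_sub_rev]
          exact hδ.trans_le (hδx _)
        have e1 : Lf cN (ι (dig (-(N : ℤ)) s)) (fun w => f w * (w - z0)⁻¹) z -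
            (ι (dig (-(N : ℤ)) s) - z0)⁻¹ * Lf cN (ι (dig (-(N : ℤ)) s)) f z =
            Lf cN (ι (dig (-(N : ℤ)) s)) f z *
              (-(cN * z) * ((cN * z + ι (dig (-(N : ℤ)) s) - z0)⁻¹ *
                (ι (dig (-(N : ℤ)) s) - z0)⁻¹)) := by
          unfold Lf
          simp only
          field_simp
          ring
        rw [e1, norm_mul, norm_mul, norm_neg, norm_mul, norm_mul, norm_inv, norm_inv, k2, hz, hcNn,
          norm_sub_rev (ι (dig (-(N : ℤ)) s)) z0]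
        refine mul_le_mul k1 ?_ (by positivity) (by positivity)
        have k3 : ‖z0 - ι (dig (-(N : ℤ)) s)‖⁻¹ ≤ δ⁻¹ := inv_anti₀ hδ (hδx _)
        calc (q ^ N)⁻¹ * ‖ρ‖ * (‖z0 - ι (dig (-(N : ℤ)) s)‖⁻¹ * ‖z0 - ι (dig (-(N : ℤ)) s)‖⁻¹)
            ≤ (q ^ N)⁻¹ * ‖ρ‖ * (δ⁻¹ * δ⁻¹) := by
              refine mul_le_mul_of_nonneg_left ?_ (by positivity)
              exact mul_le_mul k3 k3 (by positivity) (by positivity)
          _ = (q ^ N)⁻¹ * ‖ρ‖ / δ ^ 2 := by field_simp)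
    refine h.trans ?_
    have e2 : ‖ρ‖ * (B / ‖ρ‖ * ((q ^ N)⁻¹ * ‖ρ‖ / δ ^ 2)) = B * ((q ^ N)⁻¹ * ‖ρ‖) / δ ^ 2 := by
      field_simp
    rw [e2]
    refine div_le_div_of_nonneg_right ?_ (by positivity)
    exact mul_le_mul_of_nonneg_left (mul_le_mul_of_nonneg_left n2.le hQi0.le) hB
  have hkap : ∀ s : Fin (2 * N) → F,
      kap ι ρ f (mat ((unif F) ^ (N : ℤ)) (dig (-(N : ℤ)) s) 0 1) =
        res F ρ (Lf cN (ι (dig (-(N : ℤ)) s)) f) := by
    intro s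
    unfold kap
    rw [slash_eq _ _ (zpow_ne_zero _ hunif0) f]
  have hfin : (∑ s : Fin (2 * N) → F, kap ι ρ f (mat ((unif F) ^ (N : ℤ)) (dig (-(N : ℤ)) s) 0 1) *
      (z0 - ι (dig (-(N : ℤ)) s))⁻¹) - f z0 =
      (∑ s : Fin (2 * N) → F,
        (res F ρ (Lf cN (ι (dig (-(N : ℤ)) s)) (fun w => f w * (w - z0)⁻¹)) -
        (ι (dig (-(N : ℤ)) s) - z0)⁻¹ * res F ρ (Lf cN (ι (dig (-(N : ℤ)) s)) f))) -
      res F ρ (Lf cM 0 (fun w => f w * (w - z0)⁻¹)) := by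
    rw [← hexact, Finset.sum_sub_distrib]
    have h7 : ∑ s : Fin (2 * N) → F,
        kap ι ρ f (mat ((unif F) ^ (N : ℤ)) (dig (-(N : ℤ)) s) 0 1) *
        (z0 - ι (dig (-(N : ℤ)) s))⁻¹ = -∑ s : Fin (2 * N) → F,
        (ι (dig (-(N : ℤ)) s) - z0)⁻¹ * res F ρ (Lf cN (ι (dig (-(N : ℤ)) s)) f) := by
      rw [← Finset.sum_neg_distrib]
      refine Finset.sum_congr rfl fun s _ => ?_
      rw [hkap s, ← neg_sub (ι (dig (-(N : ℤ)) s)) z0, inv_neg]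
      ring
    rw [h7]
    ring
  rw [hfin]
  refine (norm_sub_le_max' _ _).trans (max_le ?_ ?_)
  · refine (IsUltrametricDist.norm_sum_le_of_forall_le_of_nonneg (by positivity)
      fun s _ => E2 s).trans ?_
    have : B * ((q ^ N)⁻¹ * q) / δ ^ 2 = B * q / δ ^ 2 * (q ^ N)⁻¹ := by ring
    rw [this]
    refine mul_le_mul_of_nonneg_right ?_ hQi0.le
    linarith
  · refine E1.trans ?_
    refine mul_le_mul_of_nonneg_right ?_ hQi0.le
    have : 0 ≤ B * q / δ ^ 2 := by positivity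
    linarith

end Main

theorem cau (hR : RESStmt) (hNIC : NICStmt) (hELM : ELMStmt) (hHOL : HOLStmt)
    (hSLA : SLAStmt) : CAUStmt := by
  intro F _ _ C _ _ _ _ ι ρ hc f B hoff hhol hbd
  have hlim : ∀ z ∈ Om ι, Tendsto (fun N : ℕ => ∑ s : Fin (2 * N) → F,
      kap ι ρ f (mat ((unif F) ^ (N : ℤ)) (dig (-(N : ℤ)) s) 0 1) *
      (z - ι (dig (-(N : ℤ)) s))⁻¹) atTop (nhds (f z)) := by
    intro z hz
    have hq := H59.one_lt_q F
    have hδ : 0 < imz ι z := by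
      obtain ⟨-, -, -, -, -, i6, -⟩ := H59.ima F C ι hc.ok
      exact (i6 z hz).1
    have ht : Tendsto (fun N : ℕ => (((Fintype.card F : ℕ) : ℝ) ^ N)⁻¹) atTop (nhds 0) :=
      (tendsto_pow_atTop_atTop_of_one_lt hq).inv_tendsto_atTop
    rw [tendsto_iff_norm_sub_tendsto_zero]
    have hcm := Tendsto.const_mul (B + B * ((Fintype.card F : ℕ) : ℝ) / (imz ι z) ^ 2) ht
    rw [mul_zero] at hcm
    refine squeeze_zero' (Eventually.of_forall fun N => norm_nonneg _) ?_ hcm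
    have e1 : ∀ᶠ N : ℕ in atTop, ‖z‖ ≤ ((Fintype.card F : ℕ) : ℝ) ^ N :=
      (tendsto_pow_atTop_atTop_of_one_lt hq).eventually_ge_atTop _
    have e2 : ∀ᶠ N : ℕ in atTop,
        (((Fintype.card F : ℕ) : ℝ) ^ N)⁻¹ * ((Fintype.card F : ℕ) : ℝ) ≤ imz ι z := by
      have h := ht.mul_const ((Fintype.card F : ℕ) : ℝ)
      rw [zero_mul] at h
      exact (h.eventually (ge_mem_nhds hδ))
    filter_upwards [e1, e2] with N h1 h2
    exact estimate hR hNIC hELM hHOL hSLA hc hoff hhol hbd z hz N h1 h2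
  refine ⟨hlim, fun h0 => ?_⟩
  funext z
  by_cases hz : z ∈ Om ι
  · have h1 := hlim z hz
    simp only [h0, zero_mul, Finset.sum_const_zero] at h1
    exact tendsto_nhds_unique h1 tendsto_const_nhds
  · exact hoff z hz

end Pool.Agent.HK.H4C
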