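import Pool.Agent.Helper8_HK.Stmt3

set_option autoImplicit false

/-!
Squad HK, module SCH (helper4): Schnirelman sums of the basis functions.
-/

namespace Pool.Agent.HK.H4

open Polynomial Filter

section Alg

variable {C : Type} [Field C]

theorem sum_pow_zero {N : ℕ} (hN : 0 < N) {ω : C} (hω : IsPrimitiveRoot ω N) {j : ℕ} (h0 : 0 < j)
    (hj : j < N) : ∑ ζ ∈ nthRootsFinset N (1 : C), ζ ^ j = 0 := by
  have hω0 : ω ≠ 0 := by
    rintro rfl
    have := hω.pow_eq_one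
    rw [zero_pow hN.ne'] at this
    exact zero_ne_one this
  have h1 : ∑ ζ ∈ nthRootsFinset N (1 : C), ζ ^ j =
      ∑ ζ ∈ nthRootsFinset N (1 : C), (ω * ζ) ^ j := by
    refine Finset.sum_nbij' (fun ζ => ω⁻¹ * ζ) (fun ζ => ω * ζ) ?_ ?_ ?_ ?_ ?_
    · intro ζ hζ
      rw [mem_nthRootsFinset hN] at hζ ⊢
      rw [mul_pow, hζ, inv_pow, hω.pow_eq_one, inv_one, one_mul]
    · intro ζ hζ
      rw [mem_nthRootsFinset hN] at hζ ⊢
      rw [mul_pow, hζ, hω.pow_eq_one, one_mul]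
    · intro ζ _
      rw [← mul_assoc, mul_inv_cancel₀ hω0, one_mul]
    · intro ζ _
      rw [← mul_assoc, inv_mul_cancel₀ hω0, one_mul]
    · intro ζ _
      rw [← mul_assoc, mul_inv_cancel₀ hω0, one_mul]
  have h2 : ∑ ζ ∈ nthRootsFinset N (1 : C), (ω * ζ) ^ j =
      ω ^ j * ∑ ζ ∈ nthRootsFinset N (1 : C), ζ ^ j := by
    rw [Finset.mul_sum]
    refine Finset.sum_congr rfl fun ζ _ => ?_
    rw [mul_pow]
  have h3 : ω ^ j ≠ 1 := hω.pow_ne_one_of_pos_of_lt h0.ne' hj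
  have h4 : (1 - ω ^ j) * ∑ ζ ∈ nthRootsFinset N (1 : C), ζ ^ j = 0 := by
    rw [sub_mul, one_mul, ← h2, ← h1, sub_self]
  rcases mul_eq_zero.1 h4 with h | h
  · exact absurd (sub_eq_zero.1 h).symm h3
  · exact h

theorem sum_eval {N : ℕ} (hN : 0 < N) {ω : C} (hω : IsPrimitiveRoot ω N) (Q : C[X])
    (hQ : Q.natDegree < N) :
    ∑ ζ ∈ nthRootsFinset N (1 : C), Q.eval ζ = N * Q.coeff 0 := by
  have h1 : ∀ ζ : C, Q.eval ζ = ∑ i ∈ Finset.range (Q.natDegree + 1), Q.coeff i * ζ ^ i :=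
    fun ζ => eval_eq_sum_range ζ
  calc ∑ ζ ∈ nthRootsFinset N (1 : C), Q.eval ζ
      = ∑ ζ ∈ nthRootsFinset N (1 : C),
          ∑ i ∈ Finset.range (Q.natDegree + 1), Q.coeff i * ζ ^ i :=
        Finset.sum_congr rfl fun ζ _ => h1 ζ
    _ = ∑ i ∈ Finset.range (Q.natDegree + 1),
          Q.coeff i * ∑ ζ ∈ nthRootsFinset N (1 : C), ζ ^ i := by
        rw [Finset.sum_comm]
        refine Finset.sum_congr rfl fun i _ => ?_
        rw [Finset.mul_sum]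
    _ = N * Q.coeff 0 := by
        rw [Finset.sum_eq_single_of_mem 0 (Finset.mem_range.2 (Nat.succ_pos _))]
        · simp only [pow_zero, Finset.sum_const, nsmul_eq_mul, mul_one]
          rw [hω.card_nthRootsFinset]
          ring
        · intro i hi hi0
          rw [Finset.mem_range] at hi
          rw [sum_pow_zero hN hω (Nat.pos_of_ne_zero hi0) (by omega), mul_zero]

end Alg

section Norm

variable {C : Type} [NormedField C] [IsUltrametricDist C]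

theorem norm_le_max_sub (x y : C) : ‖x - y‖ ≤ max ‖x‖ ‖y‖ := by
  have := IsUltrametricDist.norm_add_le_max x (-y)
  rwa [← sub_eq_add_neg, norm_neg] at this

theorem norm_one_sub {y : C} (hy : ‖y‖ < 1) : ‖1 - y‖ = 1 := by
  refine le_antisymm ?_ ?_
  · refine (norm_le_max_sub 1 y).trans ?_
    rw [norm_one]
    exact max_le le_rfl hy.le
  · by_contra hc
    rw [not_le] at hc
    have h1 : ‖(1 : C)‖ ≤ max ‖1 - y‖ ‖y‖ := by
      have := IsUltrametricDist.norm_add_le_max (1 - y) y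
      rwa [sub_add_cancel] at this
    rw [norm_one] at h1
    exact absurd h1 (not_le.2 (max_lt hc hy))

theorem norm_pow_sub_le {a b : C} (ha : ‖a‖ ≤ 1) (hb : ‖b‖ ≤ 1) (m : ℕ) :
    ‖a ^ m - b ^ m‖ ≤ ‖a - b‖ := by
  induction m with
  | zero => simp
  | succ m ih =>
    have e : a ^ (m + 1) - b ^ (m + 1) = (a ^ m - b ^ m) * a + b ^ m * (a - b) := by ring
    rw [e]
    refine (IsUltrametricDist.norm_add_le_max _ _).trans (max_le ?_ ?_)
    · rw [norm_mul]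
      calc ‖a ^ m - b ^ m‖ * ‖a‖ ≤ ‖a - b‖ * 1 :=
            mul_le_mul ih ha (norm_nonneg _) (norm_nonneg _)
        _ = ‖a - b‖ := mul_one _
    · rw [norm_mul, norm_pow]
      calc ‖b‖ ^ m * ‖a - b‖ ≤ 1 * ‖a - b‖ :=
            mul_le_mul_of_nonneg_right (pow_le_one₀ (norm_nonneg _) hb) (norm_nonneg _)
        _ = ‖a - b‖ := one_mul _

/-- polynomial approximation of `ζ ^ s / (1 - x ζ) ^ m` -/
theorem approx (x : C) (hx : ‖x‖ < 1) (s m : ℕ) (ε : ℝ) (hε : 0 < ε) :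
    ∃ Q : C[X], Q.coeff 0 = (if s = 0 then 1 else 0) ∧
      ∀ ζ : C, ‖ζ‖ ≤ 1 → ‖ζ ^ s * ((1 - x * ζ) ^ m)⁻¹ - Q.eval ζ‖ ≤ ε := by
  obtain ⟨M, hM⟩ := exists_pow_lt_of_lt_one hε hx
  refine ⟨X ^ s * (∑ i ∈ Finset.range (M + 1), (Polynomial.C x * X) ^ i) ^ m, ?_, ?_⟩
  · rw [Polynomial.coeff_zero_eq_eval_zero]
    simp only [eval_mul, eval_pow, eval_X, eval_finsetSum, eval_C, mul_zero]
    have h1 : ∑ i ∈ Finset.range (M + 1), (0 : C) ^ i = 1 := by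
      rw [Finset.sum_range_succ']
      simp
    rw [h1, one_pow, mul_one]
    rcases s with _ | s
    · simp
    · simp
  · intro ζ hζ
    have hy : ‖x * ζ‖ < 1 := by
      rw [norm_mul]
      calc ‖x‖ * ‖ζ‖ ≤ ‖x‖ * 1 := mul_le_mul_of_nonneg_left hζ (norm_nonneg _)
        _ < 1 := by rwa [mul_one]
    have hn := norm_one_sub hy
    have hne : 1 - x * ζ ≠ 0 := by
      rw [← norm_ne_zero_iff, hn]
      exact one_ne_zero
    simp only [eval_mul, eval_pow, eval_X, eval_finsetSum, eval_C]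
    have hgs : (∑ i ∈ Finset.range (M + 1), (x * ζ) ^ i) =
        (1 - x * ζ)⁻¹ - (x * ζ) ^ (M + 1) * (1 - x * ζ)⁻¹ := by
      have h1 : (∑ i ∈ Finset.range (M + 1), (x * ζ) ^ i) * (1 - x * ζ) =
          1 - (x * ζ) ^ (M + 1) := geom_sum_mul_neg _ _
      field_simp
      rw [mul_comm] at h1
      exact (mul_comm _ _).trans h1
    have hd : ‖(1 - x * ζ)⁻¹ - ∑ i ∈ Finset.range (M + 1), (x * ζ) ^ i‖ ≤ ε := by
      rw [hgs, sub_sub_cancel, norm_mul, norm_inv, hn, inv_one, mul_one, norm_pow, norm_mul]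
      calc (‖x‖ * ‖ζ‖) ^ (M + 1) ≤ ‖x‖ ^ (M + 1) := by
            refine pow_le_pow_left₀ (by positivity) ?_ _
            calc ‖x‖ * ‖ζ‖ ≤ ‖x‖ * 1 := mul_le_mul_of_nonneg_left hζ (norm_nonneg _)
              _ = ‖x‖ := mul_one _
        _ ≤ ‖x‖ ^ M := pow_le_pow_of_le_one (norm_nonneg _) hx.le (Nat.le_succ M)
        _ ≤ ε := hM.le
    have ha : ‖(1 - x * ζ)⁻¹‖ ≤ 1 := by rw [norm_inv, hn, inv_one]
    have hb : ‖∑ i ∈ Finset.range (M + 1), (x * ζ) ^ i‖ ≤ 1 := by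
      refine IsUltrametricDist.norm_sum_le_of_forall_le_of_nonneg zero_le_one fun i _ => ?_
      rw [norm_pow]
      exact pow_le_one₀ (norm_nonneg _) hy.le
    rw [← mul_sub, norm_mul, norm_pow, ← inv_pow]
    calc ‖ζ‖ ^ s * ‖(1 - x * ζ)⁻¹ ^ m - (∑ i ∈ Finset.range (M + 1), (x * ζ) ^ i) ^ m‖
        ≤ 1 * ε := mul_le_mul (pow_le_one₀ (norm_nonneg _) hζ)
          ((norm_pow_sub_le ha hb m).trans hd) (norm_nonneg _) zero_le_one
      _ = ε := one_mul _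

theorem norm_root {N : ℕ} {ζ : C} (hζ : ζ ∈ nthRootsFinset N (1 : C)) : ‖ζ‖ = 1 := by
  rcases Nat.eq_zero_or_pos N with rfl | hN
  · rw [nthRootsFinset_zero] at hζ
    exact absurd hζ (Finset.notMem_empty _)
  · rw [mem_nthRootsFinset hN] at hζ
    have h1 : ‖ζ‖ ^ N = 1 := by rw [← norm_pow, hζ, norm_one]
    exact (pow_eq_one_iff_of_nonneg (norm_nonneg _) hN.ne').1 h1

end Norm

section Main

variable {F : Type} [Field F] [Fintype F] {C : Type} [NormedField C] [IsAlgClosed C]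
  [IsUltrametricDist C]

/-- the sums of `ζ ^ s / (1 - x ζ) ^ m` -/
theorem tends (hq : ((Fintype.card F : ℕ) : C) = 0) (x : C) (hx : ‖x‖ < 1) (s m : ℕ) :
    Tendsto (fun k : ℕ => ∑ ζ ∈ nthRootsFinset (Fintype.card F ^ k - 1) (1 : C),
      ζ ^ s * ((1 - x * ζ) ^ m)⁻¹) atTop (nhds (if s = 0 then -1 else 0)) := by
  have hq2 : 2 ≤ Fintype.card F := Fintype.one_lt_card
  rw [Metric.tendsto_atTop]
  intro ε hε
  obtain ⟨Q, hQ0, hQ⟩ := approx x hx s m (ε / 2) (by positivity)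
  refine ⟨Q.natDegree + 2, fun k hk => ?_⟩
  set N := Fintype.card F ^ k - 1 with hNdef
  have hkN : Q.natDegree < N := by
    have h1 : k < Fintype.card F ^ k := Nat.lt_pow_self (by omega)
    omega
  have hN : 0 < N := by omega
  have hNC : (N : C) = -1 := by
    rw [hNdef, Nat.cast_sub (Nat.one_le_pow _ _ (by omega)), Nat.cast_pow, hq, zero_pow (by omega),
      Nat.cast_one, zero_sub]
  have hne : NeZero (N : C) := ⟨by rw [hNC]; exact neg_ne_zero.2 one_ne_zero⟩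
  obtain ⟨ω, hω⟩ := HasEnoughRootsOfUnity.exists_primitiveRoot C N
  have h1 := sum_eval hN hω Q hkN
  have h2 : (∑ ζ ∈ nthRootsFinset N (1 : C), ζ ^ s * ((1 - x * ζ) ^ m)⁻¹) -
      (if s = 0 then -1 else 0) =
      ∑ ζ ∈ nthRootsFinset N (1 : C), (ζ ^ s * ((1 - x * ζ) ^ m)⁻¹ - Q.eval ζ) := by
    rw [Finset.sum_sub_distrib, h1, hNC, hQ0]
    split_ifs <;> ring
  rw [dist_eq_norm, h2]
  refine lt_of_le_of_lt (IsUltrametricDist.norm_sum_le_of_forall_le_of_nonneg (by positivity)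
    fun ζ hζ => hQ ζ (norm_root hζ).le) ?_
  linarith

theorem sch_bound {ρ : C} (h : C → C) (B : ℝ) (k : ℕ) (hB : 0 ≤ B)
    (hh : ∀ z, ‖z‖ = ‖ρ‖ → ‖h z‖ ≤ B) : ‖SK F ρ k h‖ ≤ ‖ρ‖ * B := by
  unfold SK
  rw [norm_neg]
  refine IsUltrametricDist.norm_sum_le_of_forall_le_of_nonneg (by positivity) fun ζ hζ => ?_
  have h1 : ‖ρ * ζ‖ = ‖ρ‖ := by rw [norm_mul, norm_root hζ, mul_one]
  rw [norm_mul, h1, mul_comm]
  exact mul_le_mul_of_nonneg_left (hh _ h1) (norm_nonneg _)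

/-- replacing `ζ` by `ζ⁻¹` -/
theorem sum_inv (N : ℕ) (g : C → C) :
    ∑ ζ ∈ nthRootsFinset N (1 : C), g ζ = ∑ ζ ∈ nthRootsFinset N (1 : C), g ζ⁻¹ := by
  rcases Nat.eq_zero_or_pos N with rfl | hN
  · simp
  · refine Finset.sum_nbij' (fun ζ => ζ⁻¹) (fun ζ => ζ⁻¹) ?_ ?_ ?_ ?_ ?_
    · intro ζ hζ
      rw [mem_nthRootsFinset hN] at hζ ⊢
      rw [inv_pow, hζ, inv_one]
    · intro ζ hζ
      rw [mem_nthRootsFinset hN] at hζ ⊢
      rw [inv_pow, hζ, inv_one]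
    · intro ζ _; exact inv_inv ζ
    · intro ζ _; exact inv_inv ζ
    · intro ζ _; simp only [inv_inv]

theorem sch_in (hq : ((Fintype.card F : ℕ) : C) = 0) (ρ a : C) (ha : ‖a‖ < ‖ρ‖) (j : ℕ) :
    Tendsto (fun k => SK F ρ k (fun z => ((z - a) ^ (j + 1))⁻¹)) atTop
      (nhds (if j = 0 then 1 else 0)) := by
  have hρ : ρ ≠ 0 := by
    rintro rfl
    rw [norm_zero] at ha
    exact absurd ha (not_lt.2 (norm_nonneg _))
  have hx : ‖a / ρ‖ < 1 := by
    rw [norm_div, div_lt_one (norm_pos_iff.2 hρ)]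
    exact ha
  have h1 := (tends (F := F) hq (a / ρ) hx j (j + 1)).const_mul (-(ρ ^ j)⁻¹)
  refine (h1.congr fun k => ?_).trans_eq ?_
  · unfold SK
    rw [neg_mul, neg_inj, Finset.mul_sum, sum_inv _ (fun ζ => ((ρ * ζ - a) ^ (j + 1))⁻¹ * (ρ * ζ))]
    refine Finset.sum_congr rfl fun ζ hζ => ?_
    have hζ1 := norm_root hζ
    have hζ0 : ζ ≠ 0 := by
      rw [← norm_ne_zero_iff, hζ1]
      exact one_ne_zero
    have hy : ‖a / ρ * ζ‖ < 1 := by rw [norm_mul, hζ1, mul_one]; exact hx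
    have hn := norm_one_sub hy
    have hne : 1 - a / ρ * ζ ≠ 0 := by
      rw [← norm_ne_zero_iff, hn]
      exact one_ne_zero
    have e : ρ * ζ⁻¹ - a = ρ * ζ⁻¹ * (1 - a / ρ * ζ) := by
      field_simp
    have hA : ρ * ζ⁻¹ ≠ 0 := mul_ne_zero hρ (inv_ne_zero hζ0)
    have hA1 : (ρ * ζ⁻¹)⁻¹ * (ρ * ζ⁻¹) = 1 := inv_mul_cancel₀ hA
    have e2 : (ρ * ζ⁻¹) ^ j = ρ ^ j * (ζ ^ j)⁻¹ := by rw [mul_pow, inv_pow]
    rw [e, mul_pow, pow_succ (ρ * ζ⁻¹) j, mul_inv, mul_inv, e2, mul_inv, inv_inv]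
    linear_combination (-((ρ ^ j)⁻¹ * ζ ^ j * ((1 - a / ρ * ζ) ^ (j + 1))⁻¹)) * hA1
  · rcases j with _ | j
    · simp
    · simp

theorem sch_out (hq : ((Fintype.card F : ℕ) : C) = 0) (ρ a : C) (ha : ‖ρ‖ < ‖a‖) (j : ℕ) :
    Tendsto (fun k => SK F ρ k (fun z => ((z - a) ^ (j + 1))⁻¹)) atTop (nhds 0) := by
  have ha0 : a ≠ 0 := by
    rintro rfl
    rw [norm_zero] at ha
    exact absurd ha (not_lt.2 (norm_nonneg _))
  have hx : ‖ρ / a‖ < 1 := by
    rw [norm_div, div_lt_one (norm_pos_iff.2 ha0)]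
    exact ha
  have h1 := (tends (F := F) hq (ρ / a) hx 1 (j + 1)).const_mul (-(((-a) ^ (j + 1))⁻¹ * ρ))
  refine (h1.congr fun k => ?_).trans_eq ?_
  · unfold SK
    rw [neg_mul, neg_inj, Finset.mul_sum]
    refine Finset.sum_congr rfl fun ζ hζ => ?_
    have e : ρ * ζ - a = -a * (1 - ρ / a * ζ) := by
      field_simp
      ring
    change _ = ((ρ * ζ - a) ^ (j + 1))⁻¹ * (ρ * ζ)
    rw [e, mul_pow, mul_inv]
    ring
  · simp

theorem sch_pow (hq : ((Fintype.card F : ℕ) : C) = 0) (ρ : C) (j : ℕ) :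
    Tendsto (fun k => SK F ρ k (fun z => z ^ j)) atTop (nhds 0) := by
  have h1 := (tends (F := F) hq (0 : C) (by simp) (j + 1) 0).const_mul (-(ρ ^ (j + 1)))
  refine (h1.congr fun k => ?_).trans_eq ?_
  · unfold SK
    rw [neg_mul, neg_inj, Finset.mul_sum]
    refine Finset.sum_congr rfl fun ζ hζ => ?_
    change _ = (ρ * ζ) ^ j * (ρ * ζ)
    rw [pow_zero, inv_one, mul_one, mul_pow]
    ring
  · simp

end Main

theorem sch (hI : IMAStmt) : SCHStmt := by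
  intro F _ _ C _ _ _ _ ι ρ hc
  have hq := (hI F C ι hc.ok).1
  refine ⟨fun j => sch_pow hq ρ j, fun a ha => ?_, fun a ha => ?_, fun a j ha => ?_,
    fun h B k hB hh => sch_bound h B k hB hh⟩
  · simpa using sch_in (F := F) hq ρ a ha 0
  · simpa using sch_out (F := F) hq ρ a ha 0
  · rcases lt_or_gt_of_ne ha with h | h
    · simpa using sch_in (F := F) hq ρ a h (j + 1)
    · exact sch_out (F := F) hq ρ a h (j + 1)

end Pool.Agent.HK.H4
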